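import Pool.Agent.Helper50.GA.Ends

/-! # GA-13: the greedy set -/

set_option autoImplicit false

namespace Pool.Agent.Helper36.Alg

open Finset Pool.Agent.Helper36.PT
open Pool.Agent.Helper36.Pin (Sparse rk edges nbr ThreeConn RedRigid GR completeOn Pins pin IsEnd
  Forced Complete coloops core blocks fill Gen0 Gen Coord Line Blk At0 At lines)

open Classical in
/-- One step of the greedy procedure. -/
noncomputable def gstep (n : ℕ) (R : ℕ → ℕ → Prop) (k : ℕ) (S : List ℕ) : List ℕ :=
  if endN n R (k / n / n) (k / n % n) (k % n) ∧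
    (∀ z < n, compN n R (k / n / n) (k / n % n) (k % n) z → S.getD z 0 = 0) then
    S.set (k % n) 1 else S

/-- The table after `k` steps. -/
noncomputable def gtab (n : ℕ) (R : ℕ → ℕ → Prop) (k : ℕ) : List ℕ :=
  recN ((List.range n).map (fun _ => 0)) (gstep n R) k

/-- The set of a table. -/
noncomputable def tset (n : ℕ) (S : List ℕ) : Finset (Fin n) :=
  vset n (fun v => S.getD v 0 ≠ 0)

private theorem p0N_eq (n : ℕ) (R : ℕ → ℕ → Prop) : p0N n R = gtab n R (n ^ 3) := rfl

private theorem gtab_succ (n : ℕ) (R : ℕ → ℕ → Prop) (k : ℕ) :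
    gtab n R (k + 1) = gstep n R k (gtab n R k) := rfl

private theorem length_gtab (n : ℕ) (R : ℕ → ℕ → Prop) (k : ℕ) : (gtab n R k).length = n := by
  induction k with
  | zero =>
    show ((List.range n).map (fun _ => 0)).length = n
    simp
  | succ k ih =>
    rw [gtab_succ]
    unfold gstep
    split
    · rw [List.length_set, ih]
    · exact ih

private theorem getD_set' (x : List ℕ) (i v t : ℕ) (ht : t < x.length) :
    (x.set i v).getD t 0 = if i = t then v else x.getD t 0 := by
  rw [List.getD_eq_getElem _ _ (by rw [List.length_set]; exact ht), List.getElem_set,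
    List.getD_eq_getElem _ _ ht]

private theorem mem_tset {n : ℕ} {S : List ℕ} {v : Fin n} : v ∈ tset n S ↔ S.getD v 0 ≠ 0 :=
  mem_vset

private theorem tset_set {n : ℕ} {S : List ℕ} (hS : S.length = n) (w : Fin n) :
    tset n (S.set w 1) = insert w (tset n S) := by
  ext v
  rw [mem_tset, Finset.mem_insert, mem_tset, getD_set' _ _ _ _ (by rw [hS]; exact v.2)]
  by_cases h : (w : ℕ) = v
  · rw [if_pos h]
    simp [Fin.ext h.symm]
  · rw [if_neg h]
    constructor
    · exact Or.inr
    · rintro (h1 | h1)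
      · exact absurd (congrArg Fin.val h1).symm h
      · exact h1

private theorem tset_mono (n : ℕ) (R : ℕ → ℕ → Prop) (hn : 0 < n) (k : ℕ) :
    tset n (gtab n R k) ⊆ tset n (gtab n R (k + 1)) := by
  rw [gtab_succ]
  unfold gstep
  split
  · have h := tset_set (length_gtab n R k) (⟨k % n, Nat.mod_lt _ hn⟩ : Fin n)
    rw [show (((⟨k % n, Nat.mod_lt _ hn⟩ : Fin n)) : ℕ) = k % n from rfl] at h
    rw [h]
    exact Finset.subset_insert _ _
  · exact Finset.Subset.refl _

private theorem tset_mono' (n : ℕ) (R : ℕ → ℕ → Prop) (hn : 0 < n) {j k : ℕ} (h : j ≤ k) :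
    tset n (gtab n R j) ⊆ tset n (gtab n R k) := by
  induction h with
  | refl => exact Finset.Subset.refl _
  | step _ ih => exact ih.trans (tset_mono n R hn _)

private theorem forced_gtab (n : ℕ) (R : ℕ → ℕ → Prop) (hn : 0 < n) (k : ℕ) (hk : k ≤ n ^ 3) :
    Forced (gr n R) (tset n (gtab n R k)) := by
  induction k with
  | zero =>
    have : tset n (gtab n R 0) = ∅ := by
      rw [Finset.eq_empty_iff_forall_notMem]
      intro v hv
      rw [mem_tset] at hv
      apply hv
      show ((List.range n).map (fun _ => 0)).getD v 0 = 0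
      rw [List.getD_eq_getElem _ _ (by simp)]
      simp
    rw [this]
    exact Forced.nil
  | succ k ih =>
    have ih' := ih (by omega)
    rw [gtab_succ]
    unfold gstep
    split
    · rename_i hcond
      have hka : k / n / n < n := by
        rw [Nat.div_div_eq_div_mul, Nat.div_lt_iff_lt_mul (by positivity)]
        calc k < n ^ 3 := hk
          _ = n * (n * n) := by ring
      let a : Fin n := ⟨k / n / n, hka⟩
      let b : Fin n := ⟨k / n % n, Nat.mod_lt _ hn⟩
      let w : Fin n := ⟨k % n, Nat.mod_lt _ hn⟩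
      have hE : endN n R a b w := hcond.1
      obtain ⟨_, _, hEnd⟩ := isEnd_iff_endN.1 hE
      have h := tset_set (length_gtab n R k) w
      rw [show (w : ℕ) = k % n from rfl] at h
      rw [h]
      refine Forced.cons ih' hEnd ?_ (mem_vset.2 (mem_compN_self w.2))
      rw [Finset.disjoint_left]
      intro v hv hv'
      rw [mem_vset] at hv
      rw [mem_tset] at hv'
      exact hv' (hcond.2 v v.2 hv)
    · exact ih'

private theorem hit_gtab (n : ℕ) (R : ℕ → ℕ → Prop) (a b w : Fin n) (hE : endN n R a b w) :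
    ¬ Disjoint (vset n (compN n R a b w))
      (tset n (gtab n R (((a : ℕ) * n + b) * n + w + 1))) := by
  have hn : 0 < n := lt_of_le_of_lt (Nat.zero_le _) a.2
  have e1 : (((a : ℕ) * n + b) * n + w) % n = w := by
    rw [Nat.mul_comm ((a : ℕ) * n + b) n, Nat.mul_add_mod, Nat.mod_eq_of_lt w.2]
  have e2 : (((a : ℕ) * n + b) * n + w) / n = a * n + b := by
    rw [Nat.mul_comm ((a : ℕ) * n + b) n, Nat.mul_add_div hn, Nat.div_eq_of_lt w.2, add_zero]
  have e3 : ((a : ℕ) * n + b) % n = b := by
    rw [Nat.mul_comm (a : ℕ) n, Nat.mul_add_mod, Nat.mod_eq_of_lt b.2]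
  have e4 : ((a : ℕ) * n + b) / n = a := by
    rw [Nat.mul_comm (a : ℕ) n, Nat.mul_add_div hn, Nat.div_eq_of_lt b.2, add_zero]
  set k := ((a : ℕ) * n + b) * n + w with hk
  by_cases h0 : ∀ z < n, compN n R a b w z → (gtab n R k).getD z 0 = 0
  · rw [gtab_succ]
    unfold gstep
    rw [e1, e2, e3, e4, if_pos ⟨hE, h0⟩, tset_set (length_gtab n R k) w,
      Finset.not_disjoint_iff]
    exact ⟨w, mem_vset.2 (mem_compN_self w.2), Finset.mem_insert_self _ _⟩
  · push Not at h0
    obtain ⟨z, hz, h1, h2⟩ := h0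
    rw [Finset.not_disjoint_iff]
    refine ⟨⟨z, hz⟩, mem_vset.2 h1, tset_mono n R hn k (mem_tset.2 h2)⟩

theorem complete_p0N (n : ℕ) (R : ℕ → ℕ → Prop) :
    Complete (gr n R) (vset n (fun v => (p0N n R).getD v 0 ≠ 0)) := by
  rw [p0N_eq]
  show Complete (gr n R) (tset n (gtab n R (n ^ 3)))
  rcases Nat.eq_zero_or_pos n with hn | hn
  · subst hn
    refine ⟨?_, fun F a => a.elim0⟩
    have : tset 0 (gtab 0 R (0 ^ 3)) = ∅ := by
      rw [Finset.eq_empty_iff_forall_notMem]
      exact fun v => v.elim0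
    rw [this]
    exact Forced.nil
  · refine ⟨forced_gtab n R hn _ le_rfl, ?_⟩
    intro F a b hF hdis
    have hconn := Pin.isEnd_connected (gr n R) F a b hF
    obtain ⟨⟨w, hw⟩⟩ := hconn.nonempty
    have hw' : w ∈ F := hw
    have hFe := eq_compN_of_isEnd hF hw'
    obtain ⟨haF, hbF⟩ := isEnd_notMem hF
    have hE : endN n R a b w := by
      rw [isEnd_iff_endN]
      refine ⟨?_, ?_, ?_⟩
      · rintro rfl; exact haF hw'
      · rintro rfl; exact hbF hw'
      · rw [← hFe]; exact hF
    have hhit := hit_gtab n R a b w hE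
    have hlt : ((a : ℕ) * n + b) * n + w + 1 ≤ n ^ 3 := by
      have h1 : ((a : ℕ) + 1) * n ≤ n * n := Nat.mul_le_mul_right _ a.2
      have h2 : (a : ℕ) * n + b + 1 ≤ n * n := by
        have := b.2
        rw [add_mul, one_mul] at h1
        omega
      have h3 : ((a : ℕ) * n + b + 1) * n ≤ n * n * n := Nat.mul_le_mul_right _ h2
      have h4 : n ^ 3 = n * n * n := by ring
      have := w.2
      rw [add_mul _ 1, one_mul] at h3
      omega
    apply hhit
    rw [← hFe]
    exact hdis.mono_right (tset_mono' n R hn hlt)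

end Pool.Agent.Helper36.Alg
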