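import Pool.Agent.Helper36.Alg.Graph
import Pool.Agent.Helper36.PinK.Main
import Pool.Agent.Helper3.Pin.K
import Pool.Agent.Helper25.GA.Conn
import Pool.Agent.Helper25.GA.GR

/-! # GA-12: ends -/

set_option autoImplicit false

namespace Pool.Agent.Helper36.Alg

open Finset Pool.Agent.Helper36.PT
open Pool.Agent.Helper36.Pin (Sparse rk edges nbr ThreeConn RedRigid GR completeOn Pins pin IsEnd
  Forced Complete coloops core blocks fill Gen0 Gen Coord Line Blk At0 At lines)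

theorem mem_vset {n : ℕ} {χ : ℕ → Prop} {v : Fin n} : v ∈ vset n χ ↔ χ v := by
  unfold vset
  simp

theorem mem_compN_self {n : ℕ} {R : ℕ → ℕ → Prop} {a b w : ℕ} (hw : w < n) :
    compN n R a b w w := (reachP_iff hw).2 Relation.ReflTransGen.refl

private theorem compN_step {n : ℕ} {R : ℕ → ℕ → Prop} {a b w : ℕ} (hw : w < n) {u v : ℕ}
    (hu : compN n R a b w u) (hv : v < n) (hva : v ≠ a) (hvb : v ≠ b) (h : up R u v) :
    compN n R a b w v :=
  (reachP_iff hw).2 (((reachP_iff hw).1 hu).tail ⟨hv, ⟨hva, hvb⟩, h⟩)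

private theorem compN_ne {n : ℕ} {R : ℕ → ℕ → Prop} {a b w : ℕ} (hw : w < n) {u : ℕ}
    (hu : compN n R a b w u) : u = w ∨ (u ≠ a ∧ u ≠ b) := by
  have h := (reachP_iff hw).1 hu
  rcases Relation.ReflTransGen.cases_tail h with h | ⟨c, _, h⟩
  · exact Or.inl h
  · exact Or.inr h.2.1

private theorem gr_edge {n : ℕ} (R : ℕ → ℕ → Prop) (a b : Fin n) :
    gr n (fun x y => R x y ∨ (x = min (a : ℕ) b ∧ y = max (a : ℕ) b)) =
      gr n R ⊔ SimpleGraph.edge a b := by
  ext x y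
  rw [SimpleGraph.sup_adj, SimpleGraph.edge_adj]
  unfold gr up
  simp only [ne_eq, Fin.ext_iff]
  constructor
  · rintro (⟨h, h3 | h3⟩ | ⟨h, h3 | h3⟩)
    · exact Or.inl (Or.inl ⟨h, h3⟩)
    · right; omega
    · exact Or.inl (Or.inr ⟨h, h3⟩)
    · right; omega
  · rintro ((⟨h, h3⟩ | ⟨h, h3⟩) | h)
    · exact Or.inl ⟨h, Or.inl h3⟩
    · exact Or.inr ⟨h, Or.inl h3⟩
    · by_cases hxy : (x : ℕ) < y
      · exact Or.inl ⟨hxy, Or.inr (by omega)⟩
      · exact Or.inr ⟨by omega, Or.inr (by omega)⟩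

private theorem vset_union {n : ℕ} (χ : ℕ → Prop) (a b : Fin n) :
    vset n (fun v => χ v ∨ v = a ∨ v = b) = vset n χ ∪ {a, b} := by
  ext v
  rw [mem_vset, Finset.mem_union, mem_vset, Finset.mem_insert, Finset.mem_singleton, Fin.ext_iff,
    Fin.ext_iff]

private theorem mem_nbr' {V : Type} [Fintype V] [DecidableEq V] {G : SimpleGraph V}
    {S : Finset V} {v : V} : v ∈ nbr G S ↔ v ∉ S ∧ ∃ u ∈ S, G.Adj u v := by
  unfold Pool.Agent.Helper36.Pin.nbr
  simp

theorem isEnd_iff_endN {n : ℕ} {R : ℕ → ℕ → Prop} {a b w : Fin n} :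
    endN n R a b w ↔ (w ≠ a ∧ w ≠ b ∧ IsEnd (gr n R) (vset n (compN n R a b w)) a b) := by
  have hw : (w : ℕ) < n := w.2
  have key : ∀ c : Fin n, w ≠ c → (c = a ∨ c = b) →
      ((∃ z < n, compN n R a b w z ∧ up R z c) ↔
        c ∈ nbr (gr n R) (vset n (compN n R a b w))) := by
    intro c hwc hc
    rw [mem_nbr']
    constructor
    · rintro ⟨z, hz, h1, h2⟩
      refine ⟨?_, ⟨z, hz⟩, mem_vset.2 h1, h2⟩
      rw [mem_vset]
      intro h
      rcases compN_ne hw h with h | ⟨h, h'⟩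
      · exact hwc (Fin.ext h.symm)
      · rcases hc with rfl | rfl
        · exact h rfl
        · exact h' rfl
    · rintro ⟨_, z, h1, h2⟩
      exact ⟨z, z.2, mem_vset.1 h1, h2⟩
  have hsub : nbr (gr n R) (vset n (compN n R a b w)) ⊆ {a, b} := by
    intro v hv
    rw [mem_nbr'] at hv
    obtain ⟨h1, u, h2, h3⟩ := hv
    rw [mem_vset] at h1 h2
    rw [Finset.mem_insert, Finset.mem_singleton]
    by_contra hcon
    rw [not_or] at hcon
    exact h1 (compN_step hw h2 v.2 (fun h => hcon.1 (Fin.ext h)) (fun h => hcon.2 (Fin.ext h)) h3)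
  constructor
  · rintro ⟨h1, h2, h3, h4, h5, h6⟩
    have hwa : w ≠ a := fun h => h2 (congrArg Fin.val h)
    have hwb : w ≠ b := fun h => h3 (congrArg Fin.val h)
    refine ⟨hwa, hwb, fun h => h1 (congrArg Fin.val h), ?_, ?_⟩
    · refine Finset.Subset.antisymm hsub ?_
      intro v hv
      rw [Finset.mem_insert, Finset.mem_singleton] at hv
      rcases hv with rfl | rfl
      · exact (key v hwa (Or.inl rfl)).1 h4
      · exact (key v hwb (Or.inr rfl)).1 h5
    · rw [grN_iff, gr_edge, vset_union] at h6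
      exact h6
  · rintro ⟨hwa, hwb, h1, h2, h3⟩
    refine ⟨fun h => h1 (Fin.ext h), fun h => hwa (Fin.ext h), fun h => hwb (Fin.ext h), ?_, ?_, ?_⟩
    · refine (key a hwa (Or.inl rfl)).2 ?_
      rw [h2]; simp
    · refine (key b hwb (Or.inr rfl)).2 ?_
      rw [h2]; simp
    · rw [grN_iff, gr_edge, vset_union]
      exact h3

theorem isEnd_notMem {n : ℕ} {R : ℕ → ℕ → Prop} {a b : Fin n} {F : Finset (Fin n)}
    (h : IsEnd (gr n R) F a b) : a ∉ F ∧ b ∉ F := by
  constructor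
  · have : a ∈ nbr (gr n R) F := by rw [h.nbr_eq]; simp
    exact (mem_nbr'.1 this).1
  · have : b ∈ nbr (gr n R) F := by rw [h.nbr_eq]; simp
    exact (mem_nbr'.1 this).1

theorem eq_compN_of_isEnd {n : ℕ} {R : ℕ → ℕ → Prop} {a b w : Fin n} {F : Finset (Fin n)}
    (h : IsEnd (gr n R) F a b) (hw : w ∈ F) : F = vset n (compN n R a b w) := by
  obtain ⟨haF, hbF⟩ := isEnd_notMem h
  ext v
  rw [mem_vset]
  constructor
  · intro hv
    have hconn := Pin.isEnd_connected (gr n R) F a b h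
    have hreach := hconn.preconnected ⟨w, hw⟩ ⟨v, hv⟩
    rw [SimpleGraph.reachable_iff_reflTransGen] at hreach
    refine (reachP_iff w.2).2 ?_
    refine Relation.ReflTransGen.lift
      (fun x : ((F : Finset (Fin n)) : Set (Fin n)) => ((x : Fin n) : ℕ)) ?_ _ _ hreach
    intro x y hxy
    refine ⟨(y : Fin n).2, ⟨?_, ?_⟩, hxy⟩
    · intro hh
      have : (y : Fin n) = a := Fin.ext hh
      exact haF (this ▸ y.2)
    · intro hh
      have : (y : Fin n) = b := Fin.ext hh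
      exact hbF (this ▸ y.2)
  · intro hv
    have hr := (reachP_iff w.2).1 hv
    have key : ∀ z : ℕ, Relation.ReflTransGen
        (fun x y => y < n ∧ (y ≠ (a : ℕ) ∧ y ≠ (b : ℕ)) ∧ up R x y) (w : ℕ) z →
        ∃ hz : z < n, (⟨z, hz⟩ : Fin n) ∈ F := by
      intro z hz
      induction hz with
      | refl => exact ⟨w.2, hw⟩
      | @tail y z _ hbc ih =>
        obtain ⟨hy, hyF⟩ := ih
        obtain ⟨hz, ⟨hza, hzb⟩, hyz⟩ := hbc
        refine ⟨hz, ?_⟩
        by_contra hcon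
        have : (⟨z, hz⟩ : Fin n) ∈ nbr (gr n R) F := mem_nbr'.2 ⟨hcon, ⟨y, hy⟩, hyF, hyz⟩
        rw [h.nbr_eq, Finset.mem_insert, Finset.mem_singleton] at this
        rcases this with h1 | h1
        · exact hza (congrArg Fin.val h1)
        · exact hzb (congrArg Fin.val h1)
    obtain ⟨_, hF⟩ := key v hr
    exact hF

end Pool.Agent.Helper36.Alg
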